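import Pool.Agent.Y270.MO.Rc

/-!
# Calculus for the one-parameter families `A(ρ(x)) x + b(ρ(x))`
-/

set_option autoImplicit false

namespace Pool.Agent.Y270.MO

open MeasureTheory Set Filter Topology
open scoped NNReal

variable {n : ℕ}

/-- the gradient matrix -/
noncomputable def gd (f : V n → V n) (x : V n) : Mt n := fun i j => fderiv ℝ f x (Pi.single j 1) i

/-- the derivative of a Lipschitz map vanishes almost everywhere on the zero set -/
theorem zero_vec {f : V n → V n} {K : ℝ≥0} (hf : LipschitzWith K f) :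
    ∀ᵐ x : V n, f x = 0 → fderiv ℝ f x = 0 := by
  have hd : ∀ᵐ x : V n, DifferentiableAt ℝ f x := hf.ae_differentiableAt
  obtain ⟨N, hN, hNm, hN0⟩ := exists_measurable_superset_of_null (ae_iff.1 hd)
  set s : Set (V n) := {x | f x = 0} \ N with hs
  have hsm : MeasurableSet s := (measurableSet_eq_fun hf.continuous.measurable measurable_const).diff hNm
  have hap : ApproximatesLinearOn f (0 : V n →L[ℝ] V n) s 0 := by
    intro x hx y hy
    have h1 : f x = 0 := hx.1
    have h2 : f y = 0 := hy.1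
    simp [h1, h2]
  have h := hap.norm_fderiv_sub_le (μ := (volume : Measure (V n))) hsm (fun x => fderiv ℝ f x)
    (fun x hx => by
      have hxd : DifferentiableAt ℝ f x := by
        by_contra hcon
        exact hx.2 (hN hcon)
      exact hxd.hasFDerivAt.hasFDerivWithinAt)
  rw [ae_restrict_iff' hsm] at h
  have hN' : ∀ᵐ x : V n, x ∉ N := measure_eq_zero_iff_ae_notMem.1 hN0
  filter_upwards [h, hN'] with x hx hxN h0
  have h1 := hx ⟨h0, hxN⟩
  simpa using h1

/-- the same for scalar functions -/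
theorem zero_scal {f : V n → ℝ} {K : ℝ≥0} (hf : LipschitzWith K f) :
    ∀ᵐ x : V n, f x = 0 → fderiv ℝ f x = 0 := by
  rcases Nat.eq_zero_or_pos n with hn | hn
  · subst hn
    refine Eventually.of_forall fun x _ => ?_
    ext v
    have : v = 0 := Subsingleton.elim _ _
    rw [this, map_zero, map_zero]
  · let e : V n := Pi.single ⟨0, hn⟩ 1
    have hg : LipschitzWith K (fun x => Pi.single (M := fun _ => ℝ) (⟨0, hn⟩ : Fin n) (f x)) := by
      refine LipschitzWith.of_dist_le_mul fun x y => ?_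
      rw [dist_pi_le_iff (by positivity)]
      intro i
      by_cases hi : i = ⟨0, hn⟩
      · subst hi
        simpa using hf.dist_le_mul x y
      · rw [Pi.single_eq_of_ne hi, Pi.single_eq_of_ne hi, dist_self]
        positivity
    have hd : ∀ᵐ x : V n, DifferentiableAt ℝ f x := hf.ae_differentiableAt
    filter_upwards [zero_vec hg, hd] with x hx hdx h0
    have h1 := hx (by rw [h0, Pi.single_zero])
    have h2 : HasFDerivAt (fun x => Pi.single (M := fun _ => ℝ) (⟨0, hn⟩ : Fin n) (f x))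
        ((ContinuousLinearMap.single ℝ (fun _ => ℝ) (⟨0, hn⟩ : Fin n)).comp (fderiv ℝ f x)) x :=
      (ContinuousLinearMap.single ℝ (fun _ => ℝ) (⟨0, hn⟩ : Fin n)).hasFDerivAt.comp x
        hdx.hasFDerivAt
    rw [h2.fderiv] at h1
    ext v
    have h3 := congrFun (congrArg (fun L : V n →L[ℝ] V n => L v) h1) ⟨0, hn⟩
    simpa using h3

/-- the family -/
def fam (A : ℝ → Mt n) (b : ℝ → V n) (ρ : V n → ℝ) (x : V n) : V n :=
  fun i => ∑ k, A (ρ x) i k * x k + b (ρ x) i

/-- the gradient of `ρ` -/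
noncomputable def gr (ρ : V n → ℝ) (x : V n) : V n := fun j => fderiv ℝ ρ x (Pi.single j 1)

theorem gd_fam {A A' : ℝ → Mt n} {b b' : ℝ → V n} (hA : ∀ s, HasDerivAt A (A' s) s)
    (hb : ∀ s, HasDerivAt b (b' s) s) {ρ : V n → ℝ} {x : V n} (hρ : DifferentiableAt ℝ ρ x) :
    gd (fam A b ρ) x = A (ρ x) +
      tp (fun i => ∑ k, A' (ρ x) i k * x k + b' (ρ x) i) (gr ρ x) := by
  have hA1 : ∀ i k, HasDerivAt (fun s => A s i k) (A' (ρ x) i k) (ρ x) := fun i k =>
    hasDerivAt_pi.1 (hasDerivAt_pi.1 (hA (ρ x)) i) k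
  have hb1 : ∀ i, HasDerivAt (fun s => b s i) (b' (ρ x) i) (ρ x) := fun i =>
    hasDerivAt_pi.1 (hb (ρ x)) i
  have hr := hρ.hasFDerivAt
  have h : ∀ i, HasFDerivAt (fun x : V n => fam A b ρ x i)
      (∑ k, (A (ρ x) i k • ContinuousLinearMap.proj (R := ℝ) (φ := fun _ : Fin n => ℝ) k
        + x k • (A' (ρ x) i k • fderiv ℝ ρ x)) + b' (ρ x) i • fderiv ℝ ρ x) x := by
    intro i
    refine HasFDerivAt.add ?_ ((hb1 i).comp_hasFDerivAt x hr)
    refine HasFDerivAt.fun_sum fun k _ => ?_
    exact ((hA1 i k).comp_hasFDerivAt x hr).mul (hasFDerivAt_apply k x)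
  have h' := hasFDerivAt_pi.2 h
  have h2 : fderiv ℝ (fam A b ρ) x = _ := h'.fderiv
  funext i j
  unfold gd
  rw [h2]
  simp only [ContinuousLinearMap.coe_pi', add_apply,
    sum_apply, smul_apply, ContinuousLinearMap.proj_apply,
    smul_eq_mul, Pi.add_apply, tp, gr]
  rw [Finset.sum_add_distrib]
  have e : ∑ k, A (ρ x) i k * (Pi.single j (1:ℝ) : V n) k = A (ρ x) i j := by
    rw [Finset.sum_eq_single j]
    · simp
    · intro k _ hk
      rw [Pi.single_eq_of_ne hk, mul_zero]
    · intro h; exact absurd (Finset.mem_univ j) h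
  rw [e, add_mul, Finset.sum_mul]
  have e2 : ∀ k, x k * (A' (ρ x) i k * fderiv ℝ ρ x (Pi.single j 1))
      = A' (ρ x) i k * x k * fderiv ℝ ρ x (Pi.single j 1) := fun k => by ring
  simp only [e2]
  ring

/-- composition of a `C^1` function with a Lipschitz function that is constant off a bounded
set -/
theorem lipK {κ κ' : ℝ → ℝ} (hκ : ∀ s, HasDerivAt κ (κ' s) s) (hκ' : Continuous κ') {t0 : ℝ}
    (h0 : κ t0 = 0) {ρ : V n → ℝ} {C : ℝ≥0} (hρ : LipschitzWith C ρ) {U : Set (V n)}
    (hU : Bornology.IsBounded U) (hoff : ∀ x, x ∉ U → ρ x = t0) :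
    (∃ D, LipschitzWith D (fun x => κ (ρ x))) ∧ HasCompactSupport (fun x => κ (ρ x)) := by
  have hcl : IsCompact (closure U) := hU.isCompact_closure
  have hcs : HasCompactSupport (fun x => κ (ρ x)) :=
    HasCompactSupport.intro hcl fun x hx => by
      rw [hoff x fun h => hx (subset_closure h), h0]
  refine ⟨?_, hcs⟩
  -- the range of `ρ`
  obtain ⟨B, hB⟩ : ∃ B : ℝ, ∀ x, |ρ x| ≤ B := by
    obtain ⟨B, hB⟩ := hcl.exists_bound_of_continuousOn (hρ.continuous.continuousOn)
    refine ⟨max B |t0|, fun x => ?_⟩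
    by_cases hx : x ∈ U
    · exact (hB x (subset_closure hx)).trans (le_max_left _ _)
    · rw [hoff x hx]; exact le_max_right _ _
  obtain ⟨L, hL⟩ := (isCompact_Icc (a := -B) (b := B)).exists_bound_of_continuousOn
    hκ'.continuousOn
  have hlip : LipschitzOnWith L.toNNReal κ (Icc (-B) B) := by
    refine (convex_Icc _ _).lipschitzOnWith_of_nnnorm_hasDerivWithin_le
      (fun s _ => (hκ s).hasDerivWithinAt) fun s hs => ?_
    have h1 := hL s hs
    rw [← NNReal.coe_le_coe, coe_nnnorm, Real.coe_toNNReal']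
    exact h1.trans (le_max_left _ _)
  refine ⟨L.toNNReal * C, ?_⟩
  refine LipschitzWith.of_dist_le_mul fun x y => ?_
  have h1 := hlip.dist_le_mul (ρ x) (abs_le.1 (hB x)) (ρ y) (abs_le.1 (hB y))
  have h2 := hρ.dist_le_mul x y
  rw [NNReal.coe_mul, mul_assoc]
  exact h1.trans (mul_le_mul_of_nonneg_left h2 (NNReal.coe_nonneg _))

/-- integration by parts -/
theorem ibp {κ κ' : ℝ → ℝ} (hκ : ∀ s, HasDerivAt κ (κ' s) s) (hκ' : Continuous κ') {t0 : ℝ}
    (h0 : κ t0 = 0) {ρ : V n → ℝ} {C : ℝ≥0} (hρ : LipschitzWith C ρ) {U : Set (V n)}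
    (hU : Bornology.IsBounded U) (hoff : ∀ x, x ∉ U → ρ x = t0) (j : Fin n) (l : V n →L[ℝ] ℝ)
    (c : ℝ) :
    Integrable (fun x => (l x + c) * (κ' (ρ x) * gr ρ x j) + l (Pi.single j 1) * κ (ρ x)) ∧
    ∫ x, ((l x + c) * (κ' (ρ x) * gr ρ x j) + l (Pi.single j 1) * κ (ρ x)) = 0 := by
  obtain ⟨⟨D, hD⟩, hcs⟩ := lipK hκ hκ' h0 hρ hU hoff
  have hf : LipschitzWith ‖l‖₊ (fun x => l x + c) := by
    refine LipschitzWith.of_dist_le_mul fun x y => ?_
    have := l.lipschitz.dist_le_mul x y
    simpa using this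
  have h := LipschitzWith.integral_lineDeriv_mul_eq (μ := (volume : Measure (V n))) hf hD hcs (Pi.single j 1)
  have hρd : ∀ᵐ x : V n, DifferentiableAt ℝ ρ x := hρ.ae_differentiableAt
  have e1 : ∀ x : V n, lineDeriv ℝ (fun x => l x + c) x (Pi.single j 1) = l (Pi.single j 1) := by
    intro x
    have : HasFDerivAt (fun x => l x + c) l x := l.hasFDerivAt.add_const c
    exact this.hasLineDerivAt _ |>.lineDeriv
  have e2 : ∀ᵐ x : V n, lineDeriv ℝ (fun x => κ (ρ x)) x (-Pi.single j 1)
      = -(κ' (ρ x) * gr ρ x j) := by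
    filter_upwards [hρd] with x hx
    have h1 := (hκ (ρ x)).comp_hasFDerivAt x hx.hasFDerivAt
    have h2 := (h1.hasLineDerivAt (-Pi.single j 1)).lineDeriv
    have h3 : lineDeriv ℝ (fun x => κ (ρ x)) x (-Pi.single j 1)
        = (κ' (ρ x) • fderiv ℝ ρ x) (-Pi.single j 1) := h2
    rw [h3]
    simp [gr]
  -- integrability
  have i1 : Integrable (fun x => l (Pi.single j 1) * κ (ρ x)) :=
    (hD.continuous.integrable_of_hasCompactSupport hcs).const_mul _
  have i2 : Integrable (fun x => (l x + c) * (κ' (ρ x) * gr ρ x j)) := by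
    have hcl : IsCompact (closure U) := hU.isCompact_closure
    obtain ⟨B, hB⟩ := hcl.exists_bound_of_continuousOn
      (f := fun x : V n => (l x + c) * κ' (ρ x)) (by
        have := hρ.continuous
        fun_prop)
    have hmeas : Measurable (fun x => (l x + c) * (κ' (ρ x) * gr ρ x j)) := by
      have m1 : Measurable (fun x => gr ρ x j) := measurable_fderiv_apply_const ℝ ρ (Pi.single j 1)
      have m2 : Measurable (fun x => κ' (ρ x)) := (hκ'.comp hρ.continuous).measurable
      have m3 : Measurable (fun x : V n => l x + c) := by fun_prop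
      exact m3.mul (m2.mul m1)
    have hz : ∀ x, x ∉ closure U → (l x + c) * (κ' (ρ x) * gr ρ x j) = 0 := by
      intro x hx
      have hev : ρ =ᶠ[𝓝 x] fun _ => t0 := by
        filter_upwards [isClosed_closure.isOpen_compl.mem_nhds hx] with y hy
        exact hoff y fun h => hy (subset_closure h)
      have : fderiv ℝ ρ x = 0 := hev.fderiv_eq.trans (hasFDerivAt_const t0 x).fderiv
      unfold gr
      rw [this]
      simp
    have hon : IntegrableOn (fun x => (l x + c) * (κ' (ρ x) * gr ρ x j)) (closure U) := by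
      refine Measure.integrableOn_of_bounded (M := B * C) hcl.measure_lt_top.ne
        hmeas.aestronglyMeasurable ?_
      rw [ae_restrict_iff' hcl.measurableSet]
      refine Eventually.of_forall fun x hx => ?_
      rw [← mul_assoc, norm_mul]
      have hg : ‖gr ρ x j‖ ≤ C := by
        unfold gr
        refine (ContinuousLinearMap.le_opNorm _ _).trans ?_
        have h1 := norm_fderiv_le_of_lipschitz ℝ hρ (x₀ := x)
        have h2 : ‖(Pi.single j (1:ℝ) : V n)‖ = 1 := (Pi.norm_single (i := j) (y := (1:ℝ)) (G := fun _ => ℝ)).trans norm_one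
        rw [h2, mul_one]
        exact h1
      have hB' := hB x hx
      exact mul_le_mul hB' hg (norm_nonneg _) ((norm_nonneg _).trans hB')
    exact (integrableOn_iff_integrable_of_support_subset (fun x hx => by
      by_contra hcon
      exact hx (hz x hcon))).1 hon
  refine ⟨i2.add i1, ?_⟩
  rw [integral_add i2 i1]
  have h2 : ∫ x, lineDeriv ℝ (fun x => κ (ρ x)) x (-Pi.single j 1) * (l x + c)
      = -∫ x, (l x + c) * (κ' (ρ x) * gr ρ x j) := by
    rw [← integral_neg]
    refine integral_congr_ae ?_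
    filter_upwards [e2] with x hx
    rw [hx]
    ring
  simp only [e1] at h
  rw [h2] at h
  linarith

end Pool.Agent.Y270.MO
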