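import Pool.Agent.Y270.MO.Base

/-!
# Morrey's inequality for the maps `A(ρ(x)) x + b(ρ(x))` and smooth rank-one convex functions
-/

set_option autoImplicit false

namespace Pool.Agent.Y270.MO

open MeasureTheory Set Filter Topology
open scoped NNReal

variable {n : ℕ}

theorem gd_norm_le {f : V n → V n} {K : ℝ≥0} (hf : LipschitzWith K f) (x : V n) :
    ‖gd f x‖ ≤ K := by
  rw [pi_norm_le_iff_of_nonneg K.coe_nonneg]
  intro i
  rw [pi_norm_le_iff_of_nonneg K.coe_nonneg]
  intro j
  unfold gd
  refine (norm_le_pi_norm _ i).trans ((ContinuousLinearMap.le_opNorm _ _).trans ?_)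
  have h1 := norm_fderiv_le_of_lipschitz ℝ hf (x₀ := x)
  have h2 : ‖(Pi.single j (1:ℝ) : V n)‖ = 1 := (Pi.norm_single (i := j) (y := (1:ℝ)) (G := fun _ => ℝ)).trans norm_one
  rw [h2, mul_one]
  exact h1

theorem measurable_gd (f : V n → V n) : Measurable (gd f) := by
  refine measurable_pi_lambda _ fun i => measurable_pi_lambda _ fun j => ?_
  have h2 : Continuous (fun L : V n →L[ℝ] V n => L (Pi.single j 1) i) := by fun_prop
  exact h2.measurable.comp (measurable_fderiv ℝ f)

/-- `w ∘ gd f` is integrable on bounded sets -/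
theorem intOn {f : V n → V n} {K : ℝ≥0} (hf : LipschitzWith K f) {w : Mt n → ℝ}
    (hw : Continuous w) {U : Set (V n)} (hU : Bornology.IsBounded U) :
    IntegrableOn (fun x => w (gd f x)) U := by
  obtain ⟨B, hB⟩ := (isCompact_closedBall (0 : Mt n) K).exists_bound_of_continuousOn
    hw.continuousOn
  refine Measure.integrableOn_of_bounded (M := B) hU.measure_lt_top.ne
    (hw.measurable.comp (measurable_gd f)).aestronglyMeasurable ?_
  refine Eventually.of_forall fun x => hB _ ?_
  rw [mem_closedBall_zero_iff]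
  exact gd_norm_le hf x

theorem tp_sum (u : V n) (M : Mt n) (x ν : V n) :
    tp (fun i => ∑ k, M i k * x k + u i) ν
      = ∑ j, (∑ k, (x k * ν j) • tp (fun i => M i k) (Pi.single j 1)
        + ν j • tp u (Pi.single j 1)) := by
  funext i j'
  simp only [tp, Finset.sum_apply, Pi.add_apply, Pi.smul_apply, smul_eq_mul]
  refine Eq.symm ((Finset.sum_eq_single j' ?_ ?_).trans ?_)
  · intro j _ hj
    simp [Pi.single_eq_of_ne (Ne.symm hj)]
  · intro h; exact absurd (Finset.mem_univ j') h
  · simp only [Pi.single_eq_same, mul_one]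
    rw [add_mul, Finset.sum_mul]
    congr 1
    · refine Finset.sum_congr rfl fun k _ => by ring
    · ring

theorem mt_sum (M : Mt n) : M = ∑ j, tp (fun i => M i j) (Pi.single j 1) := by
  funext i j'
  simp only [tp, Finset.sum_apply]
  rw [Finset.sum_eq_single j']
  · simp
  · intro j _ hj
    simp [Pi.single_eq_of_ne (Ne.symm hj)]
  · intro h; exact absurd (Finset.mem_univ j') h

/-- **the basic inequality** -/
theorem base {w : Mt n → ℝ} (hR : RC w) (hw : ContDiff ℝ 1 w) {A A' : ℝ → Mt n} {b b' : ℝ → V n}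
    (hA : ∀ s, HasDerivAt A (A' s) s) (hA' : Continuous A')
    (hb : ∀ s, HasDerivAt b (b' s) s) (hb' : Continuous b') {ρ : V n → ℝ} {C : ℝ≥0}
    (hρ : LipschitzWith C ρ) {t0 : ℝ} {U : Set (V n)} (hUm : MeasurableSet U)
    (hU : Bornology.IsBounded U) (hoff : ∀ x, x ∉ U → ρ x = t0) {K : ℝ≥0}
    (hf : LipschitzWith K (fam A b ρ)) :
    w (A t0) * (volume U).toReal ≤ ∫ x in U, w (gd (fam A b ρ) x) := by
  have hwd : Differentiable ℝ w := hw.differentiable one_ne_zero
  have hAc : Continuous A := continuous_iff_continuousAt.2 fun s => (hA s).continuousAt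
  have hfc : Continuous (fun F => fderiv ℝ w F) := hw.continuous_fderiv one_ne_zero
  have htp : ∀ v : V n, Continuous (fun u : V n => tp u v) := by
    intro v
    unfold tp
    fun_prop
  -- the two kinds of potentials
  have hphi : ∀ (u : ℝ → V n) (j : Fin n), Continuous u →
      Continuous (fun s => fderiv ℝ w (A s) (tp (u s) (Pi.single j 1))) := by
    intro u j hu
    exact (hfc.comp hAc).clm_apply ((htp _).comp hu)
  set Kd : Fin n → Fin n → ℝ → ℝ := fun j k s =>
    fderiv ℝ w (A s) (tp (fun i => A' s i k) (Pi.single j 1)) with hKd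
  set κd : Fin n → ℝ → ℝ := fun j s => fderiv ℝ w (A s) (tp (b' s) (Pi.single j 1)) with hκd
  have hKdc : ∀ j k, Continuous (Kd j k) := fun j k => hphi _ j (by fun_prop)
  have hκdc : ∀ j, Continuous (κd j) := fun j => hphi _ j hb'
  set KK : Fin n → Fin n → ℝ → ℝ := fun j k r => ∫ s in t0..r, Kd j k s with hKK
  set κκ : Fin n → ℝ → ℝ := fun j r => ∫ s in t0..r, κd j s with hκκ
  have hK1 : ∀ j k s, HasDerivAt (KK j k) (Kd j k s) s := fun j k s =>
    ((hKdc j k).integral_hasStrictDerivAt t0 s).hasDerivAt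
  have hκ1 : ∀ j s, HasDerivAt (κκ j) (κd j s) s := fun j s =>
    ((hκdc j).integral_hasStrictDerivAt t0 s).hasDerivAt
  have hK0 : ∀ j k, KK j k t0 = 0 := fun j k => by simp [hKK]
  have hκ0 : ∀ j, κκ j t0 = 0 := fun j => by simp [hκκ]
  -- the function `G`
  set G1 : Fin n → Fin n → V n → ℝ := fun j k x =>
    (ContinuousLinearMap.proj (R := ℝ) (φ := fun _ : Fin n => ℝ) k x + 0)
      * (Kd j k (ρ x) * gr ρ x j)
      + ContinuousLinearMap.proj (R := ℝ) (φ := fun _ : Fin n => ℝ) k (Pi.single j 1)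
        * KK j k (ρ x) with hG1
  set G2 : Fin n → V n → ℝ := fun j x =>
    ((0 : V n →L[ℝ] ℝ) x + 1) * (κd j (ρ x) * gr ρ x j)
      + (0 : V n →L[ℝ] ℝ) (Pi.single j 1) * κκ j (ρ x) with hG2
  have hI1 : ∀ j k, Integrable (G1 j k) ∧ ∫ x, G1 j k x = 0 := fun j k =>
    ibp (hK1 j k) (hKdc j k) (hK0 j k) hρ hU hoff j _ _
  have hI2 : ∀ j, Integrable (G2 j) ∧ ∫ x, G2 j x = 0 := fun j =>
    ibp (hκ1 j) (hκdc j) (hκ0 j) hρ hU hoff j _ _
  set G : V n → ℝ := fun x => ∑ j, (∑ k, G1 j k x + G2 j x) with hG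
  have hGj : ∀ j, Integrable (fun x => ∑ k, G1 j k x) := fun j =>
    integrable_finsetSum _ fun k _ => (hI1 j k).1
  have hGi : Integrable G := integrable_finsetSum _ fun j _ => (hGj j).add (hI2 j).1
  have hG0 : ∫ x, G x = 0 := by
    have e : ∫ x, G x = ∑ j, ∫ x, (∑ k, G1 j k x + G2 j x) :=
      integral_finsetSum _ fun j _ => (hGj j).add (hI2 j).1
    rw [e]
    refine Finset.sum_eq_zero fun j _ => ?_
    have e2 : ∫ x, ∑ k, G1 j k x = ∑ k, ∫ x, G1 j k x :=
      integral_finsetSum _ fun k _ => (hI1 j k).1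
    rw [integral_add (hGj j) (hI2 j).1, e2, (hI2 j).2, add_zero]
    exact Finset.sum_eq_zero fun k _ => (hI1 j k).2
  -- the trace of the potentials
  have htr : ∀ r, ∑ j, KK j j r = w (A r) - w (A t0) := by
    intro r
    have h1 : ∑ j, KK j j r = ∫ s in t0..r, ∑ j, Kd j j s := by
      rw [intervalIntegral.integral_finsetSum]
      intro j _
      exact (hKdc j j).intervalIntegrable _ _
    rw [h1]
    refine intervalIntegral.integral_eq_sub_of_hasDerivAt (f := fun s => w (A s)) ?_ ?_
    · intro s _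
      have h2 : ∑ j, Kd j j s = fderiv ℝ w (A s) (A' s) := by
        conv_rhs => rw [mt_sum (A' s)]
        rw [map_sum]
      rw [h2]
      exact ((hwd (A s)).hasFDerivAt).comp_hasDerivAt s (hA s)
    · exact (continuous_finsetSum _ fun j _ => hKdc j j).intervalIntegrable _ _
  -- the formula for `G`
  have hGf : ∀ x, G x = fderiv ℝ w (A (ρ x)) (tp (fun i => ∑ k, A' (ρ x) i k * x k + b' (ρ x) i)
      (gr ρ x)) + (w (A (ρ x)) - w (A t0)) := by
    intro x
    rw [tp_sum, map_sum, ← htr (ρ x), hG, ← Finset.sum_add_distrib]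
    refine Finset.sum_congr rfl fun j _ => ?_
    rw [map_add, map_sum]
    simp only [map_smul, smul_eq_mul]
    have e1 : ∑ k, G1 j k x = ∑ k, (x k * gr ρ x j) * Kd j k (ρ x) + KK j j (ρ x) := by
      simp only [hG1, add_zero, ContinuousLinearMap.proj_apply]
      rw [Finset.sum_add_distrib]
      congr 1
      · exact Finset.sum_congr rfl fun k _ => by ring
      · rw [Finset.sum_eq_single j]
        · simp
        · intro k _ hk
          rw [Pi.single_eq_of_ne hk, zero_mul]
        · intro h; exact absurd (Finset.mem_univ j) h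
    have e2 : G2 j x = gr ρ x j * κd j (ρ x) := by
      simp only [hG2, zero_apply, zero_add, zero_mul, add_zero, one_mul]
      ring
    rw [e1, e2]
    ring
  -- comparison
  have hρd : ∀ᵐ x : V n, DifferentiableAt ℝ ρ x := hρ.ae_differentiableAt
  have hcmp : ∀ᵐ x : V n, G x ≤ w (gd (fam A b ρ) x) - w (A t0) := by
    filter_upwards [hρd] with x hx
    rw [hGf, gd_fam hA hb hx]
    have := hR.tangent hwd (A (ρ x)) (fun i => ∑ k, A' (ρ x) i k * x k + b' (ρ x) i) (gr ρ x)
    linarith
  have hoff' : ∀ᵐ x : V n, x ∉ U → G x = 0 := by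
    have hz := zero_scal (f := fun x => ρ x - t0) (K := C) (by
      refine LipschitzWith.of_dist_le_mul fun x y => ?_
      simpa using hρ.dist_le_mul x y)
    filter_upwards [hz, hρd] with x hx hxd hxU
    have h1 : ρ x = t0 := hoff x hxU
    have h2 := hx (by rw [h1, sub_self])
    rw [(hxd.hasFDerivAt.sub_const t0).fderiv] at h2
    have h3 : gr ρ x = 0 := by
      funext j
      unfold gr
      rw [h2]
      rfl
    rw [hGf, h3, h1]
    have h4 : tp (fun i => ∑ k, A' t0 i k * x k + b' t0 i) (0 : V n) = 0 := by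
      funext i j
      simp [tp]
    rw [h4, map_zero]
    ring
  have hset : ∫ x in U, G x = 0 := by
    rw [← hG0]
    refine setIntegral_eq_integral_of_ae_compl_eq_zero hoff'
  have hfi := intOn hf hw.continuous hU
  have hci : IntegrableOn (fun _ : V n => w (A t0)) U := integrableOn_const hU.measure_lt_top.ne
  have h5 : ∫ x in U, G x ≤ ∫ x in U, (w (gd (fam A b ρ) x) - w (A t0)) := by
    refine integral_mono_ae hGi.integrableOn (hfi.sub hci) ?_
    exact ae_restrict_of_ae hcmp
  rw [hset, integral_sub hfi hci, setIntegral_const, smul_eq_mul] at h5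
  have h6 : (volume : Measure (V n)).real U = (volume U).toReal := rfl
  rw [h6] at h5
  linarith

end Pool.Agent.Y270.MO
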