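import Mathlib

/-!
# Maps with one-parameter families of affine data
-/

set_option autoImplicit false

namespace Pool.Agent.Y270.MO

open Matrix

/-- `Cls Ω F c f`: the map `f : ℝⁿ → ℝⁿ`, which equals the affine map `x ↦ F x + c` off `Ω`, belongs
to the smallest class that contains

* (`family`) the Lipschitz maps `f(x) = A(ρ(x)) x + b(ρ(x))`, where `ρ` is a real-valued Lipschitz
  function, constant off `Ω`, and `s ↦ A(s)`, `s ↦ b(s)` are continuously differentiable curves of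
  matrices and vectors,

and is stable under

* (`subst`) replacing a map `f` of the class on countably many disjoint open subsets `U k` of `Ω`, on
  each of which `f` is affine, by maps `h k` of the class with the same affine data, if the new map
  is Lipschitz,
* (`limit`) limits of sequences of maps with the same affine data off `Ω` and a common Lipschitz
  constant whose derivatives converge almost everywhere. -/
inductive Cls {n : ℕ} : Set (Fin n → ℝ) → Matrix (Fin n) (Fin n) ℝ → (Fin n → ℝ) →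
    ((Fin n → ℝ) → (Fin n → ℝ)) → Prop
  | family (Ω : Set (Fin n → ℝ)) (A : ℝ → Matrix (Fin n) (Fin n) ℝ) (b : ℝ → Fin n → ℝ)
      (ρ : (Fin n → ℝ) → ℝ) (t₀ : ℝ) (f : (Fin n → ℝ) → (Fin n → ℝ))
      (hA : ∀ i j, ContDiff ℝ 1 (fun s => A s i j)) (hb : ∀ i, ContDiff ℝ 1 (fun s => b s i))
      (hρ : ∃ K, LipschitzWith K ρ) (hoff : ∀ x, x ∉ Ω → ρ x = t₀)
      (hf : ∃ K, LipschitzWith K f) (h : ∀ x, f x = A (ρ x) *ᵥ x + b (ρ x)) :
      Cls Ω (A t₀) (b t₀) f
  | subst (Ω : Set (Fin n → ℝ)) (F : Matrix (Fin n) (Fin n) ℝ) (c : Fin n → ℝ)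
      (f g : (Fin n → ℝ) → (Fin n → ℝ)) (U : ℕ → Set (Fin n → ℝ))
      (G : ℕ → Matrix (Fin n) (Fin n) ℝ) (d : ℕ → Fin n → ℝ)
      (h : ℕ → (Fin n → ℝ) → (Fin n → ℝ))
      (hf : Cls Ω F c f) (hU : ∀ k, IsOpen (U k)) (hUΩ : ∀ k, U k ⊆ Ω)
      (hdis : Pairwise fun k l => Disjoint (U k) (U l))
      (haff : ∀ k, ∀ x ∈ U k, f x = G k *ᵥ x + d k)
      (hh : ∀ k, Cls (U k) (G k) (d k) (h k))
      (hg : ∃ K, LipschitzWith K g) (hgU : ∀ k, ∀ x ∈ U k, g x = h k x)
      (hgoff : ∀ x, (∀ k, x ∉ U k) → g x = f x) :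
      Cls Ω F c g
  | limit (Ω : Set (Fin n → ℝ)) (F : Matrix (Fin n) (Fin n) ℝ) (c : Fin n → ℝ)
      (f : ℕ → (Fin n → ℝ) → (Fin n → ℝ)) (g : (Fin n → ℝ) → (Fin n → ℝ))
      (hf : ∀ k, Cls Ω F c (f k)) (hlip : ∃ K, (∀ k, LipschitzWith K (f k)) ∧ LipschitzWith K g)
      (hoff : ∀ x, x ∉ Ω → g x = F *ᵥ x + c)
      (hlim : ∀ᵐ x, Filter.Tendsto (fun k => fderiv ℝ (f k) x) Filter.atTop
        (nhds (fderiv ℝ g x))) :
      Cls Ω F c g

end Pool.Agent.Y270.MO
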