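import Pool.Agent.Y270.MO.Fam
import Pool.Agent.Y270.MO.Stm

/-!
# Morrey's inequality for the class `Cls`
-/

set_option autoImplicit false

namespace Pool.Agent.Y270.MO

open MeasureTheory Set Filter Topology
open scoped NNReal

variable {n : ℕ}

/-- the basic inequality without smoothness of `w` -/
theorem base_rc {w : Mt n → ℝ} (hR : RC w) {A A' : ℝ → Mt n} {b b' : ℝ → V n}
    (hA : ∀ s, HasDerivAt A (A' s) s) (hA' : Continuous A')
    (hb : ∀ s, HasDerivAt b (b' s) s) (hb' : Continuous b') {ρ : V n → ℝ} {C : ℝ≥0}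
    (hρ : LipschitzWith C ρ) {t0 : ℝ} {U : Set (V n)} (hUm : MeasurableSet U)
    (hU : Bornology.IsBounded U) (hoff : ∀ x, x ∉ U → ρ x = t0) {K : ℝ≥0}
    (hf : LipschitzWith K (fam A b ρ)) :
    w (A t0) * (volume U).toReal ≤ ∫ x in U, w (gd (fam A b ρ) x) := by
  set R : ℝ := max K ‖A t0‖ with hRdef
  have hfi := intOn hf hR.cont hU
  refine le_of_forall_pos_le_add fun ε hε => ?_
  set δ : ℝ := ε / (2 * ((volume U).toReal + 1)) with hδ
  have hv : 0 ≤ (volume U).toReal := ENNReal.toReal_nonneg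
  have hδ0 : 0 < δ := by positivity
  obtain ⟨w', hR', hs', hc'⟩ := exists_smooth hR R δ hδ0
  have h := base hR' hs' hA hA' hb hb' hρ hUm hU hoff hf
  have hfi' := intOn hf hs'.continuous hU
  have hci : IntegrableOn (fun _ : V n => δ) U := integrableOn_const hU.measure_lt_top.ne
  have h1 : ∫ x in U, w' (gd (fam A b ρ) x) ≤ ∫ x in U, (w (gd (fam A b ρ) x) + δ) := by
    refine integral_mono hfi' (hfi.add hci) fun x => ?_
    have := abs_le.1 (hc' (gd (fam A b ρ) x) ((gd_norm_le hf x).trans (le_max_left _ _)))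
    simp only
    linarith [this.2]
  rw [integral_add hfi hci, setIntegral_const, smul_eq_mul] at h1
  have h6 : (volume : Measure (V n)).real U = (volume U).toReal := rfl
  rw [h6] at h1
  have h2 := abs_le.1 (hc' (A t0) (le_max_right _ _))
  have h3 : (w (A t0) - δ) * (volume U).toReal ≤ w' (A t0) * (volume U).toReal :=
    mul_le_mul_of_nonneg_right (by linarith [h2.1]) hv
  have h4 : 2 * ((volume U).toReal * δ) ≤ ε := by
    have : 2 * (((volume U).toReal + 1) * δ) = ε := by
      rw [hδ]; field_simp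
    nlinarith
  nlinarith

/-- the matrix of the derivative -/
theorem toMatrix_gd (f : V n → V n) (x : V n) :
    (LinearMap.toMatrix' ((fderiv ℝ f x : (Fin n → ℝ) →L[ℝ] (Fin n → ℝ)) :
      (Fin n → ℝ) →ₗ[ℝ] (Fin n → ℝ)) : Mt n) = gd f x := by
  funext i j
  exact LinearMap.toMatrix'_apply _ i j

theorem gd_congr {f g : V n → V n} {x : V n} (h : fderiv ℝ f x = fderiv ℝ g x) :
    gd f x = gd g x := by
  unfold gd
  rw [h]

/-- the derivative of an affine map -/
theorem hasFDerivAt_aff (F : Matrix (Fin n) (Fin n) ℝ) (c : V n) (x : V n) :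
    HasFDerivAt (fun x : V n => (Matrix.mulVec F x + c : V n))
      (LinearMap.toContinuousLinearMap (Matrix.toLin' F)) x :=
  (LinearMap.toContinuousLinearMap (Matrix.toLin' F)).hasFDerivAt.add_const c

theorem mulVec_sg (F : Matrix (Fin n) (Fin n) ℝ) (i j : Fin n) :
    Matrix.mulVec F (Pi.single j 1) i = F i j := by
  rw [Matrix.mulVec_single_one]
  rfl

theorem gd_aff (F : Matrix (Fin n) (Fin n) ℝ) (c : V n) (x : V n) :
    gd (fun x : V n => (Matrix.mulVec F x + c : V n)) x = F := by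
  funext i j
  unfold gd
  rw [(hasFDerivAt_aff F c x).fderiv]
  exact mulVec_sg F i j

/-- **Morrey's inequality for the class** -/
theorem main {w : Mt n → ℝ} (hR : RC w) {Ω : Set (V n)} {F : Matrix (Fin n) (Fin n) ℝ}
    {c : V n} {f : V n → V n} (hf : Cls Ω F c f) :
    IsOpen Ω → Bornology.IsBounded Ω → (∃ K, LipschitzWith K f) ∧
      w F * (volume Ω).toReal ≤ ∫ x in Ω, w (gd f x) := by
  induction hf with
  | family Ω A b ρ t₀ f hA hb hρ hoff hf h =>
    intro hΩ hΩb
    refine ⟨hf, ?_⟩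
    obtain ⟨C, hC⟩ := hρ
    obtain ⟨K, hK⟩ := hf
    have hff : f = fam A b ρ := by
      funext x i
      rw [h x]
      simp only [fam, Pi.add_apply]
      rfl
    have hA1 : ContDiff (F := Mt n) ℝ 1 A := contDiff_pi.2 fun i => contDiff_pi.2 fun j => hA i j
    have hb1 : ContDiff ℝ 1 b := contDiff_pi.2 hb
    rw [hff] at hK ⊢
    exact base_rc hR (A := A) (A' := deriv (F := Mt n) A) (b' := deriv b)
      (fun s => (hA1.differentiable one_ne_zero s).hasDerivAt) (hA1.continuous_deriv le_rfl)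
      (fun s => (hb1.differentiable one_ne_zero s).hasDerivAt) (hb1.continuous_deriv le_rfl)
      hC hΩ.measurableSet hΩb hoff hK
  | subst Ω F c f g U G d h hf hU hUΩ hdis haff hh hg hgU hgoff ihf ihh =>
    intro hΩ hΩb
    refine ⟨hg, ?_⟩
    obtain ⟨⟨K, hK⟩, hfi⟩ := ihf hΩ hΩb
    obtain ⟨K', hK'⟩ := hg
    refine hfi.trans ?_
    have i1 := intOn hK hR.cont hΩb
    have i2 := intOn hK' hR.cont hΩb
    rw [← sub_nonneg, ← integral_sub i2 i1]
    have i3 : IntegrableOn (fun x => w (gd g x) - w (gd f x)) Ω := i2.sub i1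
    set O : Set (V n) := ⋃ k, U k with hO
    have hOm : MeasurableSet O := MeasurableSet.iUnion fun k => (hU k).measurableSet
    have hOΩ : O ⊆ Ω := iUnion_subset hUΩ
    -- off `O`
    have hz : ∀ᵐ x : V n, x ∉ O → w (gd g x) - w (gd f x) = 0 := by
      have hl : LipschitzWith (K' + K) (fun x => g x - f x) := hK'.sub hK
      filter_upwards [zero_vec hl, hK.ae_differentiableAt, hK'.ae_differentiableAt] with x hx h1 h2 hxO
      have h3 : g x - f x = 0 := by
        rw [hgoff x fun k hk => hxO (mem_iUnion.2 ⟨k, hk⟩), sub_self]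
      have h4 := hx h3
      rw [fderiv_fun_sub h2 h1, sub_eq_zero] at h4
      rw [gd_congr h4, sub_self]
    have e1 : ∫ x in Ω, (w (gd g x) - w (gd f x)) = ∫ x in O, (w (gd g x) - w (gd f x)) := by
      rw [← integral_indicator hΩ.measurableSet, ← integral_indicator hOm]
      refine integral_congr_ae ?_
      filter_upwards [hz] with x hx
      by_cases hxO : x ∈ O
      · rw [indicator_of_mem hxO, indicator_of_mem (hOΩ hxO)]
      · rw [indicator_of_notMem hxO]
        by_cases hxΩ : x ∈ Ω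
        · rw [indicator_of_mem hxΩ, hx hxO]
        · rw [indicator_of_notMem hxΩ]
    rw [e1, hO, integral_iUnion (fun k => (hU k).measurableSet) hdis (i3.mono_set hOΩ)]
    refine tsum_nonneg fun k => ?_
    obtain ⟨_, hk⟩ := ihh k (hU k) (hΩb.subset (hUΩ k))
    rw [integral_sub (i2.mono_set (hUΩ k)) (i1.mono_set (hUΩ k)), sub_nonneg]
    have e2 : ∫ x in U k, w (gd g x) = ∫ x in U k, w (gd (h k) x) := by
      refine setIntegral_congr_fun (hU k).measurableSet fun x hx => ?_
      have : g =ᶠ[𝓝 x] h k := by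
        filter_upwards [(hU k).mem_nhds hx] with y hy
        exact hgU k y hy
      rw [gd_congr this.fderiv_eq]
    have e3 : ∫ x in U k, w (gd f x) = w (G k) * (volume (U k)).toReal := by
      have : ∫ x in U k, w (gd f x) = ∫ x in U k, w (G k) := by
        refine setIntegral_congr_fun (hU k).measurableSet fun x hx => ?_
        have : f =ᶠ[𝓝 x] fun y => (Matrix.mulVec (G k) y + d k : V n) := by
          filter_upwards [(hU k).mem_nhds hx] with y hy
          exact haff k y hy
        exact congrArg w ((gd_congr this.fderiv_eq).trans (gd_aff (G k) (d k) x))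
      rw [this, setIntegral_const, smul_eq_mul, mul_comm]
      rfl
    rw [e2, e3]
    exact hk
  | limit Ω F c f g hf hlip hoff hlim ih =>
    intro hΩ hΩb
    obtain ⟨K, hKf, hKg⟩ := hlip
    refine ⟨⟨K, hKg⟩, ?_⟩
    obtain ⟨B, hB⟩ := (isCompact_closedBall (0 : Mt n) K).exists_bound_of_continuousOn
      hR.cont.continuousOn
    have ht : Tendsto (fun k => ∫ x in Ω, w (gd (f k) x)) atTop (𝓝 (∫ x in Ω, w (gd g x))) := by
      refine tendsto_integral_of_dominated_convergence (fun _ => B) ?_ ?_ ?_ ?_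
      · intro k
        exact (hR.cont.measurable.comp (measurable_gd (f k))).aestronglyMeasurable
      · exact integrableOn_const hΩb.measure_lt_top.ne
      · intro k
        refine Eventually.of_forall fun x => hB _ ?_
        rw [mem_closedBall_zero_iff]
        exact gd_norm_le (hKf k) x
      · refine ae_restrict_of_ae ?_
        filter_upwards [hlim] with x hx
        refine (hR.cont.tendsto _).comp ?_
        refine tendsto_pi_nhds.2 fun i => tendsto_pi_nhds.2 fun j => ?_
        have hc : Continuous (fun L : V n →L[ℝ] V n => L (Pi.single j 1) i) := by fun_prop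
        exact (hc.tendsto _).comp hx
    exact ge_of_tendsto' ht fun k => ((ih k) hΩ hΩb).2

/-- the theorem in the form of the problem -/
theorem final (W : Matrix (Fin n) (Fin n) ℝ → ℝ)
    (hW : ∀ F H : Matrix (Fin n) (Fin n) ℝ, H.rank = 1 → ∀ t : ℝ, 0 ≤ t → t ≤ 1 →
      W ((1 - t) • F + t • (F + H)) ≤ (1 - t) * W F + t * W (F + H))
    (F₀ : Matrix (Fin n) (Fin n) ℝ) (c : Fin n → ℝ) (Ω : Set (Fin n → ℝ)) (hΩ : IsOpen Ω)
    (hΩb : Bornology.IsBounded Ω) (ϑ : (Fin n → ℝ) → (Fin n → ℝ))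
    (hc : Cls Ω F₀ c (fun x => F₀.mulVec x + c + ϑ x)) :
    W F₀ * (volume Ω).toReal ≤
      ∫ x in Ω, W (F₀ + LinearMap.toMatrix'
        ((fderiv ℝ ϑ x : (Fin n → ℝ) →L[ℝ] (Fin n → ℝ)) : (Fin n → ℝ) →ₗ[ℝ] (Fin n → ℝ))) := by
  have hR : RC (n := n) W := RC_of hW
  obtain ⟨⟨K, hK⟩, h⟩ := main hR hc hΩ hΩb
  refine h.trans (le_of_eq ?_)
  refine integral_congr_ae (ae_restrict_of_ae ?_)
  filter_upwards [hK.ae_differentiableAt] with x hx
  have h1 : HasFDerivAt ϑ (fderiv ℝ (fun x => F₀.mulVec x + c + ϑ x) x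
      - LinearMap.toContinuousLinearMap (Matrix.toLin' F₀)) x := by
    have := hx.hasFDerivAt.sub (hasFDerivAt_aff F₀ c x)
    have e : (fun x => (F₀.mulVec x + c + ϑ x : V n)) - (fun x : V n => (Matrix.mulVec F₀ x + c : V n))
        = ϑ := by
      funext y
      simp
    rwa [e] at this
  have h2 : (gd (fun x => F₀.mulVec x + c + ϑ x) x : Mt n)
      = (F₀ + LinearMap.toMatrix'
        ((fderiv ℝ ϑ x : (Fin n → ℝ) →L[ℝ] (Fin n → ℝ)) : (Fin n → ℝ) →ₗ[ℝ] (Fin n → ℝ))
        : Matrix (Fin n) (Fin n) ℝ) := by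
    funext i j
    have h3 : gd ϑ x i j = gd (fun x => F₀.mulVec x + c + ϑ x) x i j - F₀ i j := by
      unfold gd
      rw [h1.fderiv]
      change fderiv ℝ (fun x => F₀.mulVec x + c + ϑ x) x (Pi.single j 1) i
        - Matrix.mulVec F₀ (Pi.single j 1) i = _
      rw [mulVec_sg]
    have h4 : (LinearMap.toMatrix' ((fderiv ℝ ϑ x : (Fin n → ℝ) →L[ℝ] (Fin n → ℝ)) :
        (Fin n → ℝ) →ₗ[ℝ] (Fin n → ℝ))) i j = gd ϑ x i j := LinearMap.toMatrix'_apply _ i j
    rw [Matrix.add_apply, h4, h3]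
    ring
  rw [h2]

end Pool.Agent.Y270.MO
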