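import Mathlib

/-!
# Rank-one convex functions of square matrices: continuity and mollification
-/

set_option autoImplicit false

namespace Pool.Agent.Y270.MO

open MeasureTheory Set Filter Topology
open scoped Convolution

/-- vectors -/
abbrev V (n : ℕ) := Fin n → ℝ

/-- square matrices, with the norm of a product -/
abbrev Mt (n : ℕ) := Fin n → Fin n → ℝ

/-- the matrix `u ⊗ v` -/
def tp {n : ℕ} (u v : V n) : Mt n := fun i j => u i * v j

/-- rank-one convexity (along the lines in the directions `u ⊗ v`) -/
def RC {n : ℕ} (w : Mt n → ℝ) : Prop :=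
  ∀ (F : Mt n) (u v : V n), ConvexOn ℝ univ (fun t : ℝ => w (F + t • tp u v))

theorem RC_of {n : ℕ} {W : Matrix (Fin n) (Fin n) ℝ → ℝ}
    (hW : ∀ F H : Matrix (Fin n) (Fin n) ℝ, H.rank = 1 → ∀ t : ℝ, 0 ≤ t → t ≤ 1 →
      W ((1 - t) • F + t • (F + H)) ≤ (1 - t) * W F + t * W (F + H)) :
    RC (n := n) W := by
  intro F u v
  refine ⟨convex_univ, fun x _ y _ a b ha hb hab => ?_⟩
  have key : ∀ H : Matrix (Fin n) (Fin n) ℝ, H = Matrix.vecMulVec u v → ∀ s : ℝ,
      ∀ G : Matrix (Fin n) (Fin n) ℝ, ∀ t : ℝ, 0 ≤ t → t ≤ 1 →
      W (G + (t * s) • H) ≤ (1 - t) * W G + t * W (G + s • H) := by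
    intro H hH s G t h0 h1
    by_cases hz : s • H = 0
    · have e : (t * s) • H = 0 := by rw [mul_smul, hz, smul_zero]
      rw [e, hz, add_zero]
      linarith
    · have hr : (s • H).rank = 1 := by
        have hle : (s • H).rank ≤ 1 := by
          have e : s • H = Matrix.vecMulVec (s • u) v := by
            rw [hH]
            ext i j
            simp [Matrix.vecMulVec_apply, mul_assoc]
          rw [e]
          exact Matrix.rank_vecMulVec_le _ _
        have hne : (s • H).rank ≠ 0 := by
          intro h0
          rw [Matrix.rank, Submodule.finrank_eq_zero, LinearMap.range_eq_bot] at h0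
          apply hz
          ext i j
          have h1 := congrFun (LinearMap.congr_fun h0 (Pi.single j 1)) i
          simpa using h1
        omega
      have h := hW G (s • H) hr t h0 h1
      have e : (1 - t) • G + t • (G + s • H) = G + (t * s) • H := by
        rw [smul_add, sub_smul, one_smul, mul_smul]
        abel
      rwa [e] at h
  have ha' : a = 1 - b := by linarith
  have key2 : ∀ (s : ℝ) (G : Mt n) (t : ℝ), 0 ≤ t → t ≤ 1 →
      W (G + (t * s) • tp u v) ≤ (1 - t) * W G + t * W (G + s • tp u v) := fun s G t h0 h1 =>
    key (tp u v) rfl s G t h0 h1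
  have h := key2 (y - x) (F + x • tp u v) b hb (by linarith)
  have e1 : F + x • tp u v + (b * (y - x)) • tp u v = F + (a • x + b • y) • tp u v := by
    rw [ha']
    simp only [smul_eq_mul]
    module
  have e2 : F + x • tp u v + (y - x) • tp u v = F + y • tp u v := by
    module
  rw [e1, e2, ← ha'] at h
  exact h

private theorem step {Y : Type*} [TopologicalSpace Y] (f : ℝ → Y → ℝ)
    (hconv : ∀ y, ConvexOn ℝ univ (fun x => f x y)) (hcont : ∀ x, Continuous (f x)) :
    Continuous (fun p : ℝ × Y => f p.1 p.2) := by
  rw [continuous_iff_continuousAt]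
  rintro ⟨x0, y0⟩
  set M : Y → ℝ := fun y => max (f (x0 + 1) y) (f (x0 - 1) y) with hM
  have hMc : Continuous M := (hcont _).max (hcont _)
  have up : ∀ s t : ℝ, 0 ≤ t → t ≤ 1 → ∀ y, f (x0 + t * s) y ≤ (1 - t) * f x0 y + t * f (x0 + s) y := by
    intro s t h0 h1 y
    have h := (hconv y).2 (mem_univ x0) (mem_univ (x0 + s)) (by linarith : 0 ≤ 1 - t) h0 (by ring)
    simp only [smul_eq_mul] at h
    have e : (1 - t) * x0 + t * (x0 + s) = x0 + t * s := by ring
    rwa [e] at h
  have lo : ∀ s t : ℝ, 0 ≤ t → ∀ y, (1 + t) * f x0 y - t * f (x0 - s) y ≤ f (x0 + t * s) y := by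
    intro s t h0 y
    have ht : 0 < 1 + t := by linarith
    have h := (hconv y).2 (mem_univ (x0 + t * s)) (mem_univ (x0 - s))
      (by positivity : 0 ≤ 1 / (1 + t)) (by positivity : 0 ≤ t / (1 + t)) (by field_simp)
    simp only [smul_eq_mul] at h
    have e : 1 / (1 + t) * (x0 + t * s) + t / (1 + t) * (x0 - s) = x0 := by field_simp; ring
    rw [e] at h
    have e2 : 1 / (1 + t) * f (x0 + t * s) y + t / (1 + t) * f (x0 - s) y
        = (f (x0 + t * s) y + t * f (x0 - s) y) / (1 + t) := by ring
    rw [e2, le_div_iff₀ ht] at h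
    linarith
  have hlo : Tendsto (fun p : ℝ × Y => (1 + |p.1 - x0|) * f x0 p.2 - |p.1 - x0| * M p.2)
      (𝓝 (x0, y0)) (𝓝 (f x0 y0)) := by
    have : Continuous (fun p : ℝ × Y => (1 + |p.1 - x0|) * f x0 p.2 - |p.1 - x0| * M p.2) := by
      have := hcont x0
      fun_prop
    simpa using this.tendsto (x0, y0)
  have hup : Tendsto (fun p : ℝ × Y => (1 - |p.1 - x0|) * f x0 p.2 + |p.1 - x0| * M p.2)
      (𝓝 (x0, y0)) (𝓝 (f x0 y0)) := by
    have : Continuous (fun p : ℝ × Y => (1 - |p.1 - x0|) * f x0 p.2 + |p.1 - x0| * M p.2) := by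
      have := hcont x0
      fun_prop
    simpa using this.tendsto (x0, y0)
  have hev : ∀ᶠ p : ℝ × Y in 𝓝 (x0, y0), |p.1 - x0| ≤ 1 := by
    have hc : Continuous (fun p : ℝ × Y => |p.1 - x0|) := by fun_prop
    have := hc.tendsto (x0, y0)
    simp only [sub_self, abs_zero] at this
    exact (this.eventually (gt_mem_nhds (by norm_num : (0:ℝ) < 1))).mono fun p hp => hp.le
  refine tendsto_of_tendsto_of_tendsto_of_le_of_le' hlo hup ?_ ?_
  · filter_upwards [hev] with p hp
    have h0 : 0 ≤ |p.1 - x0| := abs_nonneg _
    rcases le_total 0 (p.1 - x0) with h | h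
    · have h1 := lo 1 |p.1 - x0| h0 p.2
      have e : x0 + |p.1 - x0| * 1 = p.1 := by rw [abs_of_nonneg h]; ring
      rw [e] at h1
      have h2 : f (x0 - 1) p.2 ≤ M p.2 := le_max_right _ _
      nlinarith
    · have h1 := lo (-1) |p.1 - x0| h0 p.2
      have e : x0 + |p.1 - x0| * (-1) = p.1 := by rw [abs_of_nonpos h]; ring
      rw [e, sub_neg_eq_add] at h1
      have h2 : f (x0 + 1) p.2 ≤ M p.2 := le_max_left _ _
      nlinarith
  · filter_upwards [hev] with p hp
    have h0 : 0 ≤ |p.1 - x0| := abs_nonneg _
    rcases le_total 0 (p.1 - x0) with h | h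
    · have h1 := up 1 |p.1 - x0| h0 hp p.2
      have e : x0 + |p.1 - x0| * 1 = p.1 := by rw [abs_of_nonneg h]; ring
      rw [e] at h1
      have h2 : f (x0 + 1) p.2 ≤ M p.2 := le_max_left _ _
      nlinarith
    · have h1 := up (-1) |p.1 - x0| h0 hp p.2
      have e : x0 + |p.1 - x0| * (-1) = p.1 := by rw [abs_of_nonpos h]; ring
      rw [e, ← sub_eq_add_neg] at h1
      have h2 : f (x0 - 1) p.2 ≤ M p.2 := le_max_right _ _
      nlinarith

/-- a rank-one convex function is continuous -/
theorem RC.cont {n : ℕ} {w : Mt n → ℝ} (hw : RC w) : Continuous w := by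
  classical
  -- `w` as a function of the entries
  set g : (Fin n × Fin n → ℝ) → ℝ := fun x => w (fun i j => x (i, j)) with hg
  have hline : ∀ (x : Fin n × Fin n → ℝ) (a : Fin n × Fin n),
      ConvexOn ℝ univ (fun t : ℝ => g (Function.update x a t)) := by
    intro x a
    have h := hw (fun i j => Function.update x a 0 (i, j)) (Pi.single a.1 1) (Pi.single a.2 1)
    have e : (fun t : ℝ => w ((fun i j => Function.update x a 0 (i, j))
        + t • tp (Pi.single a.1 1) (Pi.single a.2 1))) =
        fun t => g (Function.update x a t) := by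
      funext t
      simp only [hg]
      congr 1
      funext i j
      simp only [Pi.add_apply, Pi.smul_apply, smul_eq_mul, tp]
      by_cases hij : (i, j) = a
      · subst hij
        simp
      · rw [Function.update_of_ne hij, Function.update_of_ne hij]
        have : (Pi.single a.1 (1:ℝ) : Fin n → ℝ) i * (Pi.single a.2 (1:ℝ) : Fin n → ℝ) j = 0 := by
          by_cases hi : i = a.1
          · have hj : j ≠ a.2 := fun hj => hij (Prod.ext hi hj)
            rw [Pi.single_eq_of_ne hj, mul_zero]
          · rw [Pi.single_eq_of_ne hi, zero_mul]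
        rw [this]
        ring
    rwa [e] at h
  have hs : ∀ s : Finset (Fin n × Fin n), ∀ p : Fin n × Fin n → ℝ,
      Continuous (fun x : Fin n × Fin n → ℝ => g (s.piecewise x p)) := by
    intro s
    induction s using Finset.induction_on with
    | empty =>
      intro p
      simp only [Finset.piecewise_empty]
      exact continuous_const
    | insert a s ha ih =>
      intro p
      have h1 := step (fun (t : ℝ) (x : Fin n × Fin n → ℝ) =>
        g (s.piecewise x (Function.update p a t))) (fun x => ?_) (fun t => ih _)
      · have h2 : Continuous (fun x : Fin n × Fin n → ℝ => (x a, x)) := by fun_prop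
        have h3 := h1.comp h2
        convert h3 using 2 with x
        simp only [Function.comp_apply]
        congr 1
        funext c
        by_cases hc : c = a
        · subst hc
          simp [Finset.piecewise, ha]
        · simp only [Finset.piecewise, Finset.mem_insert, hc, false_or]
          by_cases hcs : c ∈ s
          · simp [hcs]
          · simp [hcs, Function.update_of_ne hc]
      · have h := hline (s.piecewise x p) a
        have e : (fun t : ℝ => g (Function.update (s.piecewise x p) a t)) =
            fun t => g (s.piecewise x (Function.update p a t)) := by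
          funext t
          congr 1
          funext c
          by_cases hc : c = a
          · subst hc
            simp [Finset.piecewise, ha]
          · rw [Function.update_of_ne hc]
            simp only [Finset.piecewise]
            by_cases hcs : c ∈ s
            · simp [hcs]
            · simp [hcs, Function.update_of_ne hc]
        rwa [e] at h
  have h := hs Finset.univ 0
  simp only [Finset.piecewise_univ] at h
  have h2 : Continuous (fun F : Mt n => (fun p : Fin n × Fin n => F p.1 p.2)) := by fun_prop
  exact h.comp h2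

/-- the inequality used below -/
theorem RC.tangent {n : ℕ} {w : Mt n → ℝ} (hw : RC w) (hd : Differentiable ℝ w) (F : Mt n)
    (u v : V n) : w F + fderiv ℝ w F (tp u v) ≤ w (F + tp u v) := by
  have hc := hw F u v
  have h1 : HasDerivAt (fun t : ℝ => F + t • tp u v) (tp u v) 0 := by
    simpa using ((hasDerivAt_id (0:ℝ)).smul_const (tp u v)).const_add F
  have h2 : HasDerivAt (fun t : ℝ => w (F + t • tp u v)) (fderiv ℝ w F (tp u v)) 0 := by
    have hF : HasFDerivAt w (fderiv ℝ w F) (F + (0:ℝ) • tp u v) := by
      simpa using (hd F).hasFDerivAt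
    exact hF.comp_hasDerivAt (0:ℝ) h1
  have h3 := hc.le_slope_of_hasDerivAt (mem_univ 0) (mem_univ 1) one_pos h2
  rw [slope_def_field] at h3
  simp only [one_smul, zero_smul, add_zero, sub_zero, div_one] at h3
  linarith

/-- mollification -/
theorem exists_smooth {n : ℕ} {w : Mt n → ℝ} (hw : RC w) (R δ : ℝ) (hδ : 0 < δ) :
    ∃ w' : Mt n → ℝ, RC w' ∧ ContDiff ℝ 1 w' ∧ ∀ F : Mt n, ‖F‖ ≤ R → |w' F - w F| ≤ δ := by
  have hc := hw.cont
  have huc : UniformContinuousOn w (Metric.closedBall 0 (R + 1)) :=
    (isCompact_closedBall _ _).uniformContinuousOn_of_continuous hc.continuousOn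
  rw [Metric.uniformContinuousOn_iff] at huc
  obtain ⟨η, hη, hη'⟩ := huc δ hδ
  set r : ℝ := min η 1 with hr
  have hr0 : 0 < r := lt_min hη one_pos
  let φ : ContDiffBump (0 : Mt n) := ⟨r / 2, r, by positivity, by linarith⟩
  have hφr : φ.rOut = r := rfl
  have hint : ∀ F : Mt n, Integrable (fun t => φ.normed volume t • w (F - t)) := by
    intro F
    refine Continuous.integrable_of_hasCompactSupport ?_ ?_
    · exact φ.continuous_normed.smul (hc.comp (continuous_const.sub continuous_id))
    · exact (φ.hasCompactSupport_normed (μ := (volume : Measure (Mt n)))).smul_right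
  refine ⟨fun F => ∫ t, φ.normed volume t • w (F - t), ?_, ?_, ?_⟩
  · intro F u v
    refine ⟨convex_univ, fun x _ y _ a b ha hb hab => ?_⟩
    simp only [smul_eq_mul]
    have hint' : ∀ F : Mt n, Integrable (fun t => φ.normed volume t * w (F - t)) := hint
    rw [← integral_const_mul, ← integral_const_mul,
      ← integral_add ((hint' _).const_mul a) ((hint' _).const_mul b)]
    refine integral_mono (hint' _) (((hint' _).const_mul a).add ((hint' _).const_mul b)) ?_
    intro t
    simp only
    have h := (hw (F - t) u v).2 (mem_univ x) (mem_univ y) ha hb hab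
    simp only [smul_eq_mul] at h
    have e : ∀ s : ℝ, F + s • tp u v - t = F - t + s • tp u v := fun s => by abel
    rw [e, e, e]
    have h0 := φ.nonneg_normed (μ := (volume : Measure (Mt n))) t
    calc φ.normed volume t * w (F - t + (a * x + b * y) • tp u v)
        ≤ φ.normed volume t * (a * w (F - t + x • tp u v) + b * w (F - t + y • tp u v)) :=
          mul_le_mul_of_nonneg_left h h0
      _ = _ := by ring
  · have h := (φ.hasCompactSupport_normed (μ := (volume : Measure (Mt n)))).contDiff_convolution_left
      (ContinuousLinearMap.lsmul ℝ ℝ) (φ.contDiff_normed (n := 1))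
      (hc.locallyIntegrable (μ := (volume : Measure (Mt n))))
    exact h
  · intro F hF
    have e : (∫ t, φ.normed volume t • w (F - t)) - w F
        = ∫ t, φ.normed volume t • (w (F - t) - w F) := by
      have h1 : w F = ∫ t, φ.normed (volume : Measure (Mt n)) t • w F := by
        rw [integral_smul_const, ContDiffBump.integral_normed, one_smul]
      conv_lhs => rw [h1]
      rw [← integral_sub (hint F) ((φ.integrable_normed).smul_const _)]
      refine integral_congr_ae (Eventually.of_forall fun t => ?_)
      simp only [smul_eq_mul]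
      ring
    rw [e, ← Real.norm_eq_abs]
    refine (norm_integral_le_integral_norm _).trans ?_
    have h1 : ∫ t, φ.normed (volume : Measure (Mt n)) t * δ = δ := by
      rw [integral_mul_const, ContDiffBump.integral_normed, one_mul]
    rw [← h1]
    refine integral_mono_of_nonneg (Eventually.of_forall fun t => norm_nonneg _)
      ((φ.integrable_normed).mul_const _) (Eventually.of_forall fun t => ?_)
    simp only [norm_smul, Real.norm_eq_abs]
    rw [abs_of_nonneg (φ.nonneg_normed t)]
    by_cases ht : φ.normed volume t = 0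
    · rw [ht, zero_mul, zero_mul]
    · refine mul_le_mul_of_nonneg_left ?_ (φ.nonneg_normed t)
      have h2 : t ∈ Function.support (φ.normed (volume : Measure (Mt n))) := ht
      rw [ContDiffBump.support_normed_eq, Metric.mem_ball, dist_zero_right, hφr] at h2
      have h3 : ‖t‖ < η := h2.trans_le (min_le_left _ _)
      have h4 : ‖t‖ < 1 := h2.trans_le (min_le_right _ _)
      have h5 := hη' (F - t) (by
        rw [mem_closedBall_zero_iff]
        exact (norm_sub_le _ _).trans (by linarith)) F (by
        rw [mem_closedBall_zero_iff]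
        linarith) (by rw [dist_eq_norm]; simpa using h3)
      rw [Real.dist_eq] at h5
      exact h5.le

end Pool.Agent.Y270.MO
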